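import Mathlib

set_option autoImplicit false

namespace Pool.Agent.Results.MP_a1c723_lc.LuzinStarRothberger

open Cardinal Filter

/-- `𝒜` is an almost disjoint family of infinite subsets of `ℕ`. -/
def IsADFamily (𝒜 : Set (Set ℕ)) : Prop :=
  (∀ a ∈ 𝒜, a.Infinite) ∧ ∀ a ∈ 𝒜, ∀ b ∈ 𝒜, a ≠ b → (a ∩ b).Finite

/-- The underlying set of the Isbell–Mrówka space of `𝒜`: the natural numbers together with the
members of `𝒜`. -/
inductive Psi (𝒜 : Set (Set ℕ)) : Type
  | nat (n : ℕ) : Psi 𝒜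
  | pt (a : Set ℕ) (ha : a ∈ 𝒜) : Psi 𝒜

/-- The topology of the Isbell–Mrówka space: a set `U` is open iff for every `a ∈ 𝒜` which is a
point of `U`, all but finitely many elements of `a` belong to `U`. -/
instance (𝒜 : Set (Set ℕ)) : TopologicalSpace (Psi 𝒜) where
  IsOpen U := ∀ (a : Set ℕ) (ha : a ∈ 𝒜), Psi.pt a ha ∈ U → {n : ℕ | n ∈ a ∧ Psi.nat n ∉ U}.Finite
  isOpen_univ := by
    intro a ha _
    simp
  isOpen_inter := by
    intro s t hs ht a ha h
    refine ((hs a ha h.1).union (ht a ha h.2)).subset ?_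
    rintro n ⟨h1, h2⟩
    by_cases h : Psi.nat n ∈ s
    · right
      exact ⟨h1, fun h3 => h2 ⟨h, h3⟩⟩
    · left
      exact ⟨h1, h⟩
  isOpen_sUnion := by
    intro S hS a ha h
    obtain ⟨t, htS, hat⟩ := h
    refine (hS t htS a ha hat).subset ?_
    rintro n ⟨h1, h2⟩
    exact ⟨h1, fun h3 => h2 ⟨t, htS, h3⟩⟩

/-- A space `X` is star-Rothberger: for every sequence of open covers `𝒰 n` there are members
`V n ∈ 𝒰 n` whose stars `st(V n, 𝒰 n)` cover `X`. -/
def StarRothberger (X : Type) [TopologicalSpace X] : Prop :=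
  ∀ 𝒰 : ℕ → Set (Set X), (∀ n, (∀ u ∈ 𝒰 n, IsOpen u) ∧ ⋃₀ 𝒰 n = Set.univ) →
    ∃ V : ℕ → Set X, (∀ n, V n ∈ 𝒰 n) ∧
      ∀ x : X, ∃ n, ∃ u ∈ 𝒰 n, (u ∩ V n).Nonempty ∧ x ∈ u

/-- The dominating number. -/
noncomputable def domNumber : Cardinal.{0} :=
  sInf {κ | ∃ D : Set (ℕ → ℕ), #D = κ ∧ ∀ f : ℕ → ℕ, ∃ g ∈ D, ∀ᶠ n in atTop, f n ≤ g n}

/-- The number `cov(M)`, in the combinatorial form of the problem. -/
noncomputable def covM : Cardinal.{0} :=
  sInf {κ | ∃ F : Set (ℕ → ℕ), #F = κ ∧ ∀ g : ℕ → ℕ, ∃ f ∈ F, {n | f n = g n}.Finite}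

/-- The number `cof([X]^ℵ₀)` of a set `X` (it depends on the cardinality of `X` only): the least
size of a family of countable subsets of `X` such that every countable subset of `X` is contained
in some member. -/
noncomputable def cofCountable (X : Type) : Cardinal.{0} :=
  sInf {μ | ∃ C : Set (Set X), #C = μ ∧ (∀ c ∈ C, c.Countable) ∧
    ∀ s : Set X, s.Countable → ∃ c ∈ C, s ⊆ c}

/-! ### the index set -/

private abbrev W : Type := (ℵ₁ : Cardinal.{0}).ord.ToType

private lemma mkW : #W = ℵ₁ := Cardinal.mk_ord_toType _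

private lemma countable_iff {α : Type} (s : Set α) : s.Countable ↔ #s < ℵ₁ := by
  rw [Cardinal.lt_aleph_one_iff, Cardinal.le_aleph0_iff_set_countable]

private lemma countable_Iio (a : W) : (Set.Iio a).Countable := by
  rw [countable_iff]
  have := Cardinal.mk_Iio_lt a (by simp)
  rwa [mkW] at this

private lemma countable_Iic (a : W) : (Set.Iic a).Countable := by
  have : Set.Iic a ⊆ insert a (Set.Iio a) := by
    intro b hb
    rcases lt_or_eq_of_le (Set.mem_Iic.1 hb) with h | h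
    · right; exact h
    · left; exact h
  exact ((countable_Iio a).insert a).mono this

private lemma not_countable_univ : ¬ (Set.univ : Set W).Countable := by
  rw [countable_iff, Cardinal.mk_univ, mkW]
  exact lt_irrefl _

private lemma exists_gt {s : Set W} (hs : s.Countable) : ∃ d : W, ∀ a ∈ s, a < d := by
  by_contra h
  push Not at h
  apply not_countable_univ
  refine (hs.biUnion (fun a _ => countable_Iic a)).mono ?_
  intro d _
  obtain ⟨a, ha, had⟩ := h d
  exact Set.mem_biUnion ha had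

/-! ### a Luzin family -/

/-- One step of the construction of a Luzin family. -/
private lemma step {ι : Type} [Countable ι] [Infinite ι] (B : ι → Set ℕ)
    (hinf : ∀ i, (B i).Infinite) (had : ∀ i j, i ≠ j → (B i ∩ B j).Finite) :
    ∃ a : Set ℕ, a.Infinite ∧ (∀ i, (a ∩ B i).Finite) ∧
      ∀ m : ℕ, {i | ∀ x ∈ a ∩ B i, x < m}.Finite := by
  classical
  obtain ⟨e⟩ : Nonempty (ℕ ≃ ι) := by
    obtain ⟨_⟩ := nonempty_denumerable ι
    exact ⟨(Denumerable.eqv ι).symm⟩
  have h1 : ∀ n : ℕ, ∃ x, x ∈ B (e n) ∧ (∀ k < n, x ∉ B (e k)) ∧ n ≤ x := by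
    intro n
    have hfin : ((⋃ k ∈ Finset.range n, (B (e n) ∩ B (e k))) ∪ {x | x < n}).Finite := by
      apply Set.Finite.union _ (Set.finite_lt_nat n)
      apply Set.Finite.biUnion (Finset.finite_toSet _)
      intro k hk
      apply had
      intro h
      have := e.injective h
      simp at hk
      omega
    obtain ⟨x, hx, hx2⟩ := ((hinf (e n)).sdiff hfin).nonempty
    refine ⟨x, hx, ?_, ?_⟩
    · intro k hk hxk
      apply hx2
      left
      simp only [Set.mem_iUnion]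
      exact ⟨k, by simpa using hk, hx, hxk⟩
    · by_contra h
      apply hx2
      right
      simpa using h
  choose x hx1 hx2 hx3 using h1
  refine ⟨Set.range x, ?_, ?_, ?_⟩
  · apply Set.infinite_of_not_bddAbove
    rintro ⟨b, hb⟩
    have := hb ⟨b + 1, rfl⟩
    have := hx3 (b + 1)
    omega
  · intro i
    obtain ⟨k, rfl⟩ := e.surjective i
    refine ((Set.finite_le_nat k).image x).subset ?_
    rintro y ⟨⟨n, rfl⟩, hn⟩
    refine ⟨n, ?_, rfl⟩
    by_contra h
    simp only [Set.mem_ofPred_eq, not_le] at h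
    exact hx2 n k h hn
  · intro m
    refine ((Set.finite_lt_nat m).image e).subset ?_
    intro i hi
    obtain ⟨k, rfl⟩ := e.surjective i
    refine ⟨k, ?_, rfl⟩
    have := hi (x k) ⟨⟨k, rfl⟩, hx1 k⟩
    have := hx3 k
    simp only [Set.mem_ofPred_eq]
    omega

/-- The `i`-th column. -/
private def col (i : ℕ) : Set ℕ := Set.range (fun j => Nat.pair i j)

private lemma col_infinite (i : ℕ) : (col i).Infinite := by
  apply Set.infinite_range_of_injective
  intro a b h
  simp only [Nat.pair_eq_pair] at h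
  exact h.2

private lemma col_inter {i j : ℕ} (h : i ≠ j) : (col i ∩ col j).Finite := by
  have : col i ∩ col j = ∅ := by
    ext x
    simp only [Set.mem_inter_iff, Set.mem_empty_iff_false, iff_false, not_and]
    rintro ⟨a, rfl⟩ ⟨b, hb⟩
    simp only [Nat.pair_eq_pair] at hb
    exact h hb.1.symm
  rw [this]
  exact Set.finite_empty

private def Good (α : W) (A : ∀ β : W, β < α → Set ℕ) (a : Set ℕ) : Prop :=
  a.Infinite ∧ (∀ n, (a ∩ col n).Finite) ∧ (∀ (β : W) (h : β < α), (a ∩ A β h).Finite) ∧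
    ∀ m : ℕ, {β : W | ∃ h : β < α, ∀ x ∈ a ∩ A β h, x < m}.Finite

open Classical in
private noncomputable def stepFun (α : W) (A : ∀ β : W, β < α → Set ℕ) : Set ℕ :=
  if h : ∃ a, Good α A a then h.choose else ∅

private noncomputable def lz : W → Set ℕ :=
  WellFounded.fix (C := fun _ => Set ℕ) (wellFounded_lt (α := W)) stepFun

private lemma lz_eq (α : W) : lz α = stepFun α (fun β _ => lz β) := by
  unfold lz
  rw [WellFounded.fix_eq]

private lemma lz_good (α : W) : Good α (fun β _ => lz β) (lz α) := by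
  induction α using WellFoundedLT.induction with
  | ind α ih =>
    have hex : ∃ a, Good α (fun β _ => lz β) a := by
      have hcount : Countable (Set.Iio α) := (countable_Iio α).to_subtype
      let B : ℕ ⊕ Set.Iio α → Set ℕ := Sum.elim col (fun β => lz β)
      have hinf : ∀ i, (B i).Infinite := by
        rintro (n | β)
        · exact col_infinite n
        · exact (ih β β.2).1
      have hcl : ∀ (n : ℕ) (β : Set.Iio α), (col n ∩ lz β).Finite := by
        intro n β
        rw [Set.inter_comm]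
        exact (ih β β.2).2.1 n
      have hll : ∀ (β γ : Set.Iio α), (β : W) < γ → (lz γ ∩ lz β).Finite := by
        intro β γ h
        exact (ih γ γ.2).2.2.1 β h
      have had : ∀ i j, i ≠ j → (B i ∩ B j).Finite := by
        rintro (n | β) (m | γ) hne
        · exact col_inter (fun h => hne (by rw [h]))
        · exact hcl n γ
        · have := hcl m β
          rw [Set.inter_comm] at this
          exact this
        · have hne' : (β : W) ≠ γ := fun h => hne (by rw [Subtype.ext h])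
          rcases lt_or_gt_of_ne hne' with h | h
          · have := hll β γ h
            rw [Set.inter_comm] at this
            exact this
          · exact hll γ β h
      obtain ⟨a, ha1, ha2, ha3⟩ := step B hinf had
      refine ⟨a, ha1, fun n => ha2 (Sum.inl n), fun β h => ha2 (Sum.inr ⟨β, h⟩), ?_⟩
      intro m
      have h1 := ha3 m
      have h2 : {β : Set.Iio α | ∀ x ∈ a ∩ lz β, x < m}.Finite :=
        h1.preimage (f := (Sum.inr : Set.Iio α → ℕ ⊕ Set.Iio α)) Sum.inr_injective.injOn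
      refine (h2.image Subtype.val).subset ?_
      rintro β ⟨h, hβ⟩
      exact ⟨⟨β, h⟩, hβ, rfl⟩
    rw [lz_eq]
    unfold stepFun
    rw [dif_pos hex]
    exact hex.choose_spec

private lemma lz_inter {α β : W} (h : α ≠ β) : (lz α ∩ lz β).Finite := by
  rcases lt_or_gt_of_ne h with h | h
  · have := (lz_good β).2.2.1 α h
    rw [Set.inter_comm] at this
    exact this
  · exact (lz_good α).2.2.1 β h

private lemma lz_injective : Function.Injective lz := by
  intro α β h
  by_contra hne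
  have := lz_inter hne
  rw [h, Set.inter_self] at this
  exact (lz_good β).1 this

private lemma luzin_isAD : IsADFamily (Set.range lz) := by
  constructor
  · rintro _ ⟨α, rfl⟩
    exact (lz_good α).1
  · rintro _ ⟨α, rfl⟩ _ ⟨β, rfl⟩ hne
    exact lz_inter (fun h => hne (by rw [h]))

private lemma luzin_mk : #(Set.range lz) = ℵ₁ := by
  rw [Cardinal.mk_range_eq _ lz_injective, mkW]

/-! ### the Luzin family is star-Rothberger when `ℵ₁ < 𝔡` -/

private lemma not_dominating (hd : ℵ₁ < domNumber) (J : W → ℕ → ℕ) :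
    ∃ g : ℕ → ℕ, ∀ α, ∃ k, J α k < g k := by
  by_contra hcon
  push Not at hcon
  have : domNumber ≤ #(Set.range J) := by
    apply csInf_le'
    refine ⟨Set.range J, rfl, ?_⟩
    intro f
    obtain ⟨α, hα⟩ := hcon f
    exact ⟨J α, ⟨α, rfl⟩, Eventually.of_forall hα⟩
  have h2 : #(Set.range J) ≤ ℵ₁ := by
    have := Cardinal.mk_range_le (f := J)
    rwa [mkW] at this
  exact absurd (this.trans h2) (not_le.2 hd)

private lemma luzin_star (hd : ℵ₁ < domNumber) : StarRothberger (Psi (Set.range lz)) := by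
  classical
  intro 𝒰 h𝒰
  have hU : ∀ (n : ℕ) (α : W), ∃ u ∈ 𝒰 n, ∃ N : ℕ,
      Psi.pt (𝒜 := Set.range lz) (lz α) ⟨α, rfl⟩ ∈ u ∧
      ∀ x ∈ lz α, N ≤ x → Psi.nat x ∈ u := by
    intro n α
    have hmem : (Psi.pt (lz α) ⟨α, rfl⟩ : Psi (Set.range lz)) ∈ ⋃₀ 𝒰 n := by
      rw [(h𝒰 n).2]; trivial
    obtain ⟨u, hu, hpu⟩ := hmem
    have hfin : {x : ℕ | x ∈ lz α ∧ (Psi.nat x : Psi (Set.range lz)) ∉ u}.Finite :=
      (h𝒰 n).1 u hu (lz α) ⟨α, rfl⟩ hpu
    obtain ⟨N, hN⟩ := hfin.bddAbove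
    refine ⟨u, hu, N + 1, hpu, ?_⟩
    intro x hx hNx
    by_contra hxu
    have := hN ⟨hx, hxu⟩
    omega
  choose u hu f hpu hf using hU
  -- for every `n` uncountably many `α` have `f n α ≤ m n`
  have hm : ∀ n, ∃ m : ℕ, ¬ {α : W | f n α ≤ m}.Countable := by
    intro n
    by_contra hcon
    push Not at hcon
    apply not_countable_univ
    refine (Set.countable_iUnion hcon).mono ?_
    intro α _
    exact Set.mem_iUnion.2 ⟨f n α, le_refl (f n α)⟩
  choose m hm using hm
  have hs : ∀ n, ∃ s : ℕ → W, Function.Injective s ∧ ∀ j, f n (s j) ≤ m n := by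
    intro n
    have hinf : {α : W | f n α ≤ m n}.Infinite := by
      intro hfin
      exact hm n hfin.countable
    refine ⟨fun j => (hinf.natEmbedding _ j : W), ?_, ?_⟩
    · intro i j h
      exact (hinf.natEmbedding _).injective (Subtype.ext h)
    · intro j
      exact (hinf.natEmbedding _ j).2
  choose s hsinj hsm using hs
  obtain ⟨δ, hδ⟩ : ∃ δ : W, ∀ n j, s n j < δ := by
    obtain ⟨δ, hδ⟩ := exists_gt (s := ⋃ n, Set.range (s n))
      (Set.countable_iUnion (fun n => Set.countable_range _))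
    exact ⟨δ, fun n j => hδ _ (Set.mem_iUnion.2 ⟨n, j, rfl⟩)⟩
  -- the Luzin property
  have hJ : ∀ (α : W) (n : ℕ), ∃ J : ℕ, δ ≤ α → ∀ j, J ≤ j →
      ∃ x, x ∈ lz α ∧ x ∈ lz (s n j) ∧ m n ≤ x ∧ f n α ≤ x := by
    intro α n
    by_cases hα : δ ≤ α
    · have h1 := (lz_good α).2.2.2 (max (m n) (f n α))
      have h2 := h1.preimage (f := s n) (hsinj n).injOn
      obtain ⟨J, hJ⟩ := h2.bddAbove
      refine ⟨J + 1, fun _ j hj => ?_⟩
      by_contra hcon
      push Not at hcon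
      have : j ∈ s n ⁻¹' {β : W | ∃ _ : β < α, ∀ x ∈ lz α ∩ lz β, x < max (m n) (f n α)} := by
        refine ⟨(hδ n j).trans_le hα, ?_⟩
        rintro x ⟨hx1, hx2⟩
        by_cases h : m n ≤ x
        · exact lt_max_of_lt_right (hcon x hx1 hx2 h)
        · exact lt_max_of_lt_left (not_le.1 h)
      have := hJ this
      omega
    · exact ⟨0, fun h => absurd h hα⟩
  choose J hJ using hJ
  obtain ⟨g, hg⟩ := not_dominating hd (fun α k => J α (2 * k))
  -- the remaining countably many points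
  let R : Set (Psi (Set.range lz)) :=
    Set.range Psi.nat ∪ (fun α : W => Psi.pt (lz α) ⟨α, rfl⟩) '' Set.Iio δ
  have hRc : R.Countable := (Set.countable_range _).union ((countable_Iio δ).image _)
  have hRn : R.Nonempty := ⟨Psi.nat 0, Or.inl ⟨0, rfl⟩⟩
  obtain ⟨q, hq⟩ := hRc.exists_eq_range hRn
  have hO : ∀ n : ℕ, ∃ o ∈ 𝒰 n, q (n / 2) ∈ o := by
    intro n
    have : q (n / 2) ∈ ⋃₀ 𝒰 n := by rw [(h𝒰 n).2]; trivial
    exact this
  choose o ho hqo using hO
  refine ⟨fun n => if n % 2 = 0 then u n (s n (g (n / 2))) else o n, ?_, ?_⟩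
  · intro n
    dsimp only
    split_ifs
    · exact hu n _
    · exact ho n
  · have hodd : ∀ x ∈ R, ∃ n, ∃ v ∈ 𝒰 n,
        (v ∩ (if n % 2 = 0 then u n (s n (g (n / 2))) else o n)).Nonempty ∧ x ∈ v := by
      intro x hx
      rw [hq] at hx
      obtain ⟨i, rfl⟩ := hx
      have h1 : (2 * i + 1) % 2 = 1 := by omega
      have h2 : (2 * i + 1) / 2 = i := by omega
      have h3 := hqo (2 * i + 1)
      rw [h2] at h3
      refine ⟨2 * i + 1, o (2 * i + 1), ho _, ?_, h3⟩
      rw [h1]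
      simp only [one_ne_zero, if_false, Set.inter_self]
      exact ⟨_, h3⟩
    intro x
    cases x with
    | nat n => exact hodd _ (Or.inl ⟨n, rfl⟩)
    | pt a ha =>
      obtain ⟨α, rfl⟩ := ha
      by_cases hα : δ ≤ α
      · obtain ⟨k, hk⟩ := hg α
        have h1 : (2 * k) % 2 = 0 := by omega
        have h2 : (2 * k) / 2 = k := by omega
        obtain ⟨x, hx1, hx2, hx3, hx4⟩ := hJ α (2 * k) hα (g k) hk.le
        refine ⟨2 * k, u (2 * k) α, hu _ _, ?_, hpu _ _⟩
        dsimp only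
        rw [h1, h2]
        simp only [if_true]
        refine ⟨Psi.nat x, hf _ _ x hx1 hx4, hf _ _ x hx2 ?_⟩
        exact (hsm (2 * k) (g k)).trans hx3
      · exact hodd _ (Or.inr ⟨α, not_le.1 hα, rfl⟩)

/-! ### no Isbell–Mrówka space of size `ℵ₁` is star-Rothberger when `𝔡 ≤ ℵ₁` -/

private lemma exists_everywhere (hd : domNumber ≤ ℵ₁) :
    ∃ d : W → ℕ → ℕ, ∀ h : ℕ → ℕ, ∃ ξ, ∀ n, h n ≤ d ξ n := by
  classical
  have hne : {κ | ∃ D : Set (ℕ → ℕ), #D = κ ∧
      ∀ f : ℕ → ℕ, ∃ g ∈ D, ∀ᶠ n in atTop, f n ≤ g n}.Nonempty :=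
    ⟨_, Set.univ, rfl, fun f => ⟨f, Set.mem_univ _, Eventually.of_forall (fun n => le_rfl)⟩⟩
  obtain ⟨D, hD1, hD2⟩ := csInf_mem hne
  have hDle : #D ≤ ℵ₁ := by
    rw [hD1]; exact hd
  have hDne : D.Nonempty := by
    obtain ⟨g, hg, _⟩ := hD2 (fun _ => 0)
    exact ⟨g, hg⟩
  have h1 : #(D × ℕ) ≤ #W := by
    rw [Cardinal.mk_prod, mkW]
    simp only [Cardinal.lift_id, Cardinal.mk_nat]
    calc #D * ℵ₀ ≤ ℵ₁ * ℵ₁ := by
          gcongr
          exact (Cardinal.aleph0_lt_aleph_one).le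
      _ = ℵ₁ := Cardinal.mul_eq_self (Cardinal.aleph0_lt_aleph_one).le
  obtain ⟨emb⟩ := h1
  have : Nonempty (D × ℕ) := ⟨(⟨hDne.some, hDne.some_mem⟩, 0)⟩
  have hsurj : Function.Surjective (Function.invFun emb) :=
    Function.invFun_surjective emb.injective
  refine ⟨fun ξ n => (Function.invFun emb ξ).1.1 n + (Function.invFun emb ξ).2, ?_⟩
  intro h
  obtain ⟨g, hg, hgg⟩ := hD2 h
  obtain ⟨N, hN⟩ := eventually_atTop.1 hgg
  obtain ⟨ξ, hξ⟩ := hsurj (⟨g, hg⟩, ∑ i ∈ Finset.range N, h i)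
  refine ⟨ξ, fun n => ?_⟩
  simp only [hξ]
  by_cases hn : N ≤ n
  · have := hN n hn
    omega
  · have : h n ≤ ∑ i ∈ Finset.range N, h i :=
      Finset.single_le_sum (f := h) (fun _ _ => Nat.zero_le _) (by simpa using hn)
    omega

private lemma exists_pairing : ∃ p : W → W × W, ∀ (q : W × W) (α : W), ∃ β, α ≤ β ∧ p β = q := by
  have hcard : #W = #((W × W) × W) := by
    rw [Cardinal.mk_prod, Cardinal.mk_prod, mkW]
    simp only [Cardinal.lift_id]
    rw [Cardinal.mul_eq_self (Cardinal.aleph0_lt_aleph_one).le,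
      Cardinal.mul_eq_self (Cardinal.aleph0_lt_aleph_one).le]
  obtain ⟨e⟩ := Cardinal.eq.1 hcard
  refine ⟨fun β => (e β).1, ?_⟩
  intro q α
  by_contra hcon
  push Not at hcon
  apply not_countable_univ
  have h1 : (Set.range (fun γ : W => e.symm (q, γ))).Countable := by
    refine (countable_Iio α).mono ?_
    rintro _ ⟨γ, rfl⟩
    by_contra h
    simp only [Set.mem_Iio, not_lt] at h
    exact hcon _ h (by simp)
  have hinj : Function.Injective (fun γ : W => e.symm (q, γ)) := by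
    intro a b h
    have := e.symm.injective h
    simpa using this
  have h2 := h1.preimage_of_injOn (f := fun γ : W => e.symm (q, γ)) hinj.injOn
  refine h2.mono ?_
  intro γ _
  exact ⟨γ, rfl⟩

private lemma not_star {𝒜 : Set (Set ℕ)} (had : IsADFamily 𝒜) (hc : #𝒜 = ℵ₁)
    (hd : domNumber ≤ ℵ₁) : ¬ StarRothberger (Psi 𝒜) := by
  classical
  intro hstar
  obtain ⟨d, hd⟩ := exists_everywhere hd
  obtain ⟨p, hp⟩ := exists_pairing
  have hcard : #W = #𝒜 := by rw [mkW, hc]
  obtain ⟨A⟩ := Cardinal.eq.1 hcard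
  -- enumerations of the initial segments
  have he : ∀ α : W, ∃ e : ℕ → W, Set.Iio α ⊆ Set.range e := by
    intro α
    by_cases hne : (Set.Iio α).Nonempty
    · obtain ⟨e, he⟩ := (countable_Iio α).exists_eq_range hne
      exact ⟨e, he.le⟩
    · exact ⟨fun _ => α, by rw [Set.not_nonempty_iff_eq_empty.1 hne]; exact Set.empty_subset _⟩
  choose e he using he
  have hA : ∀ {β γ : W}, γ ≠ β → ((A β : Set ℕ) ∩ (A γ : Set ℕ)).Finite := by
    intro β γ hne
    apply had.2 _ (A β).2 _ (A γ).2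
    intro h
    exact hne (A.injective (Subtype.ext h)).symm
  have hf : ∀ (β : W) (n : ℕ), ∃ N : ℕ, d (p β).2 n < N ∧
      ∀ i ≤ d (p β).2 n, e (p β).1 i ≠ β →
        ∀ x ∈ (A β : Set ℕ) ∩ (A (e (p β).1 i) : Set ℕ), x < N := by
    intro β n
    have hfin : (⋃ i ∈ Finset.range (d (p β).2 n + 1),
        {x | e (p β).1 i ≠ β ∧ x ∈ (A β : Set ℕ) ∩ (A (e (p β).1 i) : Set ℕ)}).Finite := by
      apply Set.Finite.biUnion (Finset.finite_toSet _)
      intro i _
      by_cases h : e (p β).1 i ≠ β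
      · exact (hA h).subset (fun x hx => hx.2)
      · refine Set.finite_empty.subset ?_
        rintro x ⟨h1, _⟩
        exact absurd h1 h
    obtain ⟨N, hN⟩ := hfin.bddAbove
    refine ⟨max (N + 1) (d (p β).2 n + 1), by omega, ?_⟩
    intro i hi hne x hx
    have : x ≤ N := by
      apply hN
      simp only [Set.mem_iUnion]
      exact ⟨i, by simp; omega, hne, hx⟩
    omega
  choose f hf1 hf2 using hf
  -- the open covers
  let O : ℕ → W → Set (Psi 𝒜) := fun n β =>
    {y | y = Psi.pt (A β) (A β).2 ∨ ∃ x ∈ (A β : Set ℕ), f β n ≤ x ∧ y = Psi.nat x}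
  let 𝒰 : ℕ → Set (Set (Psi 𝒜)) := fun n =>
    Set.range (O n) ∪ Set.range (fun k : ℕ => ({Psi.nat k} : Set (Psi 𝒜)))
  have h𝒰 : ∀ n, (∀ u ∈ 𝒰 n, IsOpen u) ∧ ⋃₀ 𝒰 n = Set.univ := by
    intro n
    constructor
    · rintro u (⟨β, rfl⟩ | ⟨k, rfl⟩)
      · intro a ha hau
        have haeq : a = A β := by
          rcases hau with h | ⟨x, _, _, h⟩
          · simpa using h
          · simp at h
        subst haeq
        refine (Set.finite_lt_nat (f β n)).subset ?_
        rintro x ⟨hx1, hx2⟩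
        by_contra hlt
        simp only [Set.mem_ofPred_eq, not_lt] at hlt
        exact hx2 (Or.inr ⟨x, hx1, hlt, rfl⟩)
      · intro a ha hau
        simp at hau
    · apply Set.eq_univ_of_forall
      intro y
      cases y with
      | nat k => exact ⟨_, Or.inr ⟨k, rfl⟩, rfl⟩
      | pt a ha =>
        refine ⟨O n (A.symm ⟨a, ha⟩), Or.inl ⟨_, rfl⟩, Or.inl ?_⟩
        simp
  obtain ⟨V, hV1, hV2⟩ := hstar 𝒰 h𝒰
  -- indices of the chosen sets
  have hV3 : ∀ n, ∃ (γ : W) (k : ℕ), V n = O n γ ∨ V n = {Psi.nat k} := by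
    intro n
    rcases hV1 n with ⟨γ, h⟩ | ⟨k, h⟩
    · exact ⟨γ, 0, Or.inl h.symm⟩
    · exact ⟨(exists_gt Set.countable_empty).choose, k, Or.inr h.symm⟩
  choose γ k hV3 using hV3
  obtain ⟨α, hα⟩ := exists_gt (Set.countable_range γ)
  have hi : ∀ n, ∃ i, e α i = γ n := by
    intro n
    exact he α (hα _ ⟨n, rfl⟩)
  choose i hi using hi
  obtain ⟨ξ, hξ⟩ := hd (fun n => max (i n) (k n))
  obtain ⟨β, hαβ, hpβ⟩ := hp (α, ξ) α
  obtain ⟨n, v, hv, ⟨y, hyv, hyV⟩, hxv⟩ := hV2 (Psi.pt (A β) (A β).2)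
  have hγβ : γ n ≠ β := ne_of_lt ((hα _ ⟨n, rfl⟩).trans_le hαβ)
  have hp1 : (p β).1 = α := by rw [hpβ]
  have hp2 : (p β).2 = ξ := by rw [hpβ]
  have hξn := hξ n
  -- `v` is the neighbourhood of `A β`
  have hvO : v = O n β := by
    rcases hv with ⟨β', rfl⟩ | ⟨j, rfl⟩
    · rcases hxv with h | ⟨x, _, _, h⟩
      · have h2 : (A β : Set ℕ) = A β' := by simpa using h
        rw [A.injective (Subtype.ext h2)]
      · simp at h
    · simp at hxv
  subst hvO
  have hfβ := hf1 β n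
  rw [hp2] at hfβ
  rcases hyv with rfl | ⟨x, hx1, hx2, rfl⟩
  · rcases hV3 n with h | h
    · rw [h] at hyV
      rcases hyV with h2 | ⟨x, _, _, h2⟩
      · have h3 : (A β : Set ℕ) = A (γ n) := by simpa using h2
        exact hγβ (A.injective (Subtype.ext h3)).symm
      · simp at h2
    · rw [h] at hyV
      simp at hyV
  · rcases hV3 n with h | h
    · rw [h] at hyV
      rcases hyV with h2 | ⟨x', hx'1, _, h2⟩
      · simp at h2
      · have h3 : x = x' := by simpa using h2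
        subst h3
        have h4 := hf2 β n (i n) (by rw [hp2]; exact (le_max_left _ _).trans hξn)
          (by rw [hp1, hi n]; exact hγβ) x
          ⟨hx1, by rw [hp1, hi n]; exact hx'1⟩
        omega
    · rw [h] at hyV
      have h2 : x = k n := by simpa using hyV
      have h3 := (le_max_right (i n) (k n)).trans hξn
      omega

/-! ### the covering number of the countable subsets of a set of size `ℵ₁` -/

private lemma cofCountable_aleph_one {X : Type} (hX : #X = ℵ₁) : cofCountable X = ℵ₁ := by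
  apply le_antisymm
  · have hcard : #W = #X := by rw [mkW, hX]
    obtain ⟨A⟩ := Cardinal.eq.1 hcard
    have h1 : cofCountable X ≤ #(Set.range (fun α : W => A '' Set.Iio α)) := by
      apply csInf_le'
      refine ⟨_, rfl, ?_, ?_⟩
      · rintro _ ⟨α, rfl⟩
        exact (countable_Iio α).image _
      · intro s hs
        obtain ⟨α, hα⟩ := exists_gt (hs.image A.symm)
        refine ⟨_, ⟨α, rfl⟩, ?_⟩
        intro x hx
        exact ⟨A.symm x, hα _ ⟨x, hx, rfl⟩, by simp⟩
    have h2 := Cardinal.mk_range_le (f := fun α : W => A '' Set.Iio α)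
    rw [mkW] at h2
    exact h1.trans h2
  · have hne : {μ | ∃ C : Set (Set X), #C = μ ∧ (∀ c ∈ C, c.Countable) ∧
        ∀ s : Set X, s.Countable → ∃ c ∈ C, s ⊆ c}.Nonempty :=
      ⟨_, {s | s.Countable}, rfl, fun c hc => hc, fun s hs => ⟨s, hs, le_rfl⟩⟩
    apply le_csInf hne
    rintro μ ⟨C, rfl, hC1, hC2⟩
    by_contra hlt
    rw [not_le, ← countable_iff] at hlt
    have h1 : (⋃₀ C).Countable := hlt.sUnion hC1
    have h2 : ⋃₀ C = Set.univ := by
      apply Set.eq_univ_of_forall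
      intro x
      obtain ⟨c, hc, hxc⟩ := hC2 {x} (Set.countable_singleton x)
      exact ⟨c, hc, hxc rfl⟩
    rw [h2, countable_iff, Cardinal.mk_univ, hX] at h1
    exact lt_irrefl _ h1

/-- There is an almost disjoint family of cardinality `ℵ₁ ≥ cov(M)` whose Isbell–Mrówka space is
star-Rothberger if and only if `cov(M) ≤ ℵ₁ < 𝔡`; moreover `cof([ℵ₁]^ℵ₀) = ℵ₁`. -/
theorem result :
    ((∃ 𝒜 : Set (Set ℕ), IsADFamily 𝒜 ∧ #𝒜 = ℵ₁ ∧ StarRothberger (Psi 𝒜)) ↔ ℵ₁ < domNumber) ∧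
    ((∃ 𝒜 : Set (Set ℕ), IsADFamily 𝒜 ∧ #𝒜 = ℵ₁ ∧ covM ≤ #𝒜 ∧ cofCountable 𝒜 = #𝒜 ∧
      StarRothberger (Psi 𝒜)) ↔ (covM ≤ ℵ₁ ∧ ℵ₁ < domNumber)) := by
  have key : ∀ 𝒜 : Set (Set ℕ), IsADFamily 𝒜 → #𝒜 = ℵ₁ → StarRothberger (Psi 𝒜) →
      ℵ₁ < domNumber := by
    intro 𝒜 h1 h2 h3
    by_contra hlt
    exact not_star h1 h2 (not_lt.1 hlt) h3
  refine ⟨⟨?_, ?_⟩, ⟨?_, ?_⟩⟩
  · rintro ⟨𝒜, h1, h2, h3⟩
    exact key 𝒜 h1 h2 h3
  · intro hd
    exact ⟨_, luzin_isAD, luzin_mk, luzin_star hd⟩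
  · rintro ⟨𝒜, h1, h2, h3, h4, h5⟩
    exact ⟨h2 ▸ h3, key 𝒜 h1 h2 h5⟩
  · rintro ⟨hc, hd⟩
    exact ⟨_, luzin_isAD, luzin_mk, by rw [luzin_mk]; exact hc,
      by rw [cofCountable_aleph_one luzin_mk, luzin_mk], luzin_star hd⟩

end Pool.Agent.Results.MP_a1c723_lc.LuzinStarRothberger
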